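import Pool.Agent.K7.H42.SSE.Neg

set_option autoImplicit false

/-!
# Reductions to small-set expansion need almost as many NOT gates as parity

Let `G x` be a regular graph on a fixed vertex set for every input `x` of `N` bits, such that `G x` has
a set of `k` vertices with expansion at most `ε` if `f x` is true (for instance if `x` has an even
number of ones), and all sets of `k` vertices of `G x` have expansion at least `1 - η` if `f x` is
false; here `ε + η < 1`. Let `x 0 ≤ ... ≤ x s` be a chain of inputs along which `f` alternates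
(`s = N` for parity). The entries of the adjacency matrix (or of the lists of neighbours) of `G x` are
computed by circuits with `t` NOT gates, and any number of monotone gates of any kind.

* If `K` is the set of the entries of the matrix which are not constant, then
  `(1 - ε - η) k ∑ (d (x j) + d (x (j+1))) / 2 ≤ |K| (2 ^ (t + 1) - 1)`; so for graphs of positive
  density, or if the number of variable entries is at most a constant times the number of edges,
  `t ≥ log₂ N - O(1)` NOT gates are needed.
* If the lists of neighbours are given by `B` bits for each neighbour, then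
  `(1 - ε - η) (k / n) s ≤ 2 B (2 ^ (t + 1) - 1)`: at least `log₂ N - log₂ B - O(1)` NOT gates.
* If the map is monotone then the graphs have more than `exp ((1 - ε - η) (k / n) s)` vertices.
* Parity has circuits with `t` NOT gates if `N < 2 ^ (t + 1)`, and so for any two graphs `Y`, `Z` the
  map which takes even inputs to `Y` and odd inputs to `Z` needs at most `t + 1` NOT gates.

The definitions used in the statement (`Prog`, `Alternates`, and `Reduces`, `Lists`) are in
`Pool/Agent/K7/H42/SSE/Neg.lean`, `Form.lean` and `Lists.lean`; `cut` (used in `Reduces`) is in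
`Pool/Agent/Y601/SSE/Defs.lean`.

Proof: a yes instance and a no instance of the same order differ in a fraction
`(1 - ε - η) (k / n) / 2` of the edges, and an entry computed with `t` NOT gates changes at most
`2 ^ (t + 1) - 1` times along a chain.
-/

namespace Pool.Agent.Results.MP_8d8c46_lc.FewNegations

open Finset Pool.Agent.K7.H42.SSE
open scoped Classical

theorem result :
    -- (1) reductions which output the adjacency matrix
    (∀ (N k s t : ℕ) (V : Type) [Fintype V] (f : (Fin N → Bool) → Bool)
      (G : (Fin N → Bool) → SimpleGraph V) (d : (Fin N → Bool) → ℕ) (ε η : ℝ),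
      k ≤ Fintype.card V → 0 ≤ ε → 0 ≤ η → ε + η < 1 → Reduces f G d k ε η →
      ∀ x : ℕ → Fin N → Bool, Alternates f s x →
      ∀ K : Finset (V × V),
        (∀ p ∉ K, ∀ y z, (G y).Adj p.1 p.2 ↔ (G z).Adj p.1 p.2) →
        (∀ p ∈ K, ∃ P : Prog N t, ∀ y, P.eval y = true ↔ (G y).Adj p.1 p.2) →
      (1 - ε - η) * k * ∑ j ∈ range s, (((d (x j) : ℝ) + d (x (j + 1))) / 2) ≤
        K.card * (2 ^ (t + 1) - 1)) ∧
    -- (2) reductions which output lists of neighbours
    (∀ (N k s d B t : ℕ) (V : Type) [Fintype V] (f : (Fin N → Bool) → Bool)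
      (G : (Fin N → Bool) → SimpleGraph V) (ε η : ℝ),
      1 ≤ k → k ≤ Fintype.card V → 0 ≤ ε → 0 ≤ η → ε + η < 1 → Reduces f G (fun _ => d) k ε η →
      ∀ x : ℕ → Fin N → Bool, Alternates f s x →
      ∀ (nb : (Fin N → Bool) → V → Fin d → V), (∀ y, Lists (G y) (nb y)) →
      ∀ (code : V → Fin B → Bool), Function.Injective code →
        (∀ u j b, ∃ P : Prog N t, ∀ y, P.eval y = code (nb y u j) b) →
      (1 - ε - η) * (k / Fintype.card V) * s ≤ 2 * B * (2 ^ (t + 1) - 1)) ∧
    -- (3) monotone reductions
    (∀ (N k s : ℕ) (V : Type) [Fintype V] (f : (Fin N → Bool) → Bool)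
      (G : (Fin N → Bool) → SimpleGraph V) (d : (Fin N → Bool) → ℕ) (ε η : ℝ),
      1 ≤ k → k ≤ Fintype.card V → 0 ≤ ε → 0 ≤ η → ε + η < 1 → Reduces f G d k ε η →
      ∀ x : ℕ → Fin N → Bool, Alternates f s x → Monotone G →
      Real.exp ((1 - ε - η) * (k / Fintype.card V) * s) < Fintype.card V) ∧
    -- (4) parity alternates along a chain of length `N`
    (∀ N : ℕ, Alternates (fun y => decide (Even (univ.filter fun i => y i = true).card)) N
      (fun (j : ℕ) (i : Fin N) => decide (i.1 < j))) ∧
    -- (5) circuits for reductions from parity with two graphs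
    (∀ (N t : ℕ) (V : Type) [Fintype V] (Y Z : SimpleGraph V), N < 2 ^ (t + 1) →
      ∀ p : V × V, ¬ (Y.Adj p.1 p.2 ↔ Z.Adj p.1 p.2) → ∃ t' ≤ t + 1, ∃ P : Prog N t', ∀ x,
        P.eval x = true ↔
          (if Even (univ.filter fun i => x i = true).card then Y else Z).Adj p.1 p.2) := by
  refine ⟨?_, ?_, ?_, ?_, ?_⟩
  · intro N k s t V _ f G d ε η h2 h3 h4 h5 h6 x hx K hK hP
    exact neg_matrix h6 h2 h3 h4 h5 x hx K hK hP
  · intro N k s d B t V _ f G ε η h1 h2 h3 h4 h5 h6 x hx nb hnb code hcode hP
    exact neg_list h6 h2 h1 h3 h4 h5 x hx nb hnb code hcode hP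
  · intro N k s V _ f G d ε η h1 h2 h3 h4 h5 h6 x hx hG
    have h := mono_exp h6 h2 h1 h3 h4 h5 x hx hG
    have h7 : (1 : ℝ) ≤ d (x 0) := by exact_mod_cast h6.pos (x 0)
    have h8 : (d (x s) : ℝ) < Fintype.card V := by
      have hne : Nonempty V := Fintype.card_pos_iff.1 (by omega)
      obtain ⟨v⟩ := hne
      have h9 : (univ.filter fun w => (G (x s)).Adj v w).card < Fintype.card V := by
        rw [← card_univ]
        apply card_lt_card
        rw [ssubset_univ_iff, Ne, eq_univ_iff_forall, not_forall]
        exact ⟨v, by simp⟩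
      rw [h6.regular] at h9
      exact_mod_cast h9
    have h10 := Real.exp_pos ((1 - ε - η) * ((k : ℝ) / Fintype.card V) * s)
    nlinarith
  · intro N j hj
    have hcard : ∀ j ≤ N, (univ.filter fun i : Fin N => decide (i.1 < j) = true).card = j := by
      intro j hj
      have : (univ.filter fun i : Fin N => decide (i.1 < j) = true) =
          (univ.filter fun i : Fin N => i.1 < j) := filter_congr fun i _ => by simp
      rw [this, Fin.card_filter_val_lt]
      omega
    refine ⟨fun i => ?_, ?_⟩
    · show decide (i.1 < j) ≤ decide (i.1 < j + 1)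
      by_cases h : i.1 < j
      · simp [h, Nat.lt_succ_of_lt h]
      · simp [h]
    · show decide (Even (univ.filter fun i : Fin N => decide (i.1 < j) = true).card) ≠
        decide (Even (univ.filter fun i : Fin N => decide (i.1 < j + 1) = true).card)
      rw [hcard j hj.le, hcard (j + 1) hj]
      intro h
      rw [decide_eq_decide, Nat.even_add_one] at h
      tauto
  · intro N t V _ Y Z hN p hp
    exact neg_sharp N t hN Y Z p hp

end Pool.Agent.Results.MP_8d8c46_lc.FewNegations
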