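import Pool.Agent.K7.H42.SSE.Lists

set_option autoImplicit false

/-!
# Reductions to small-set expansion need formulas of quadratic size

Let `G x` be a regular graph on a fixed vertex set for every input `x` of `N` bits, such that `G x` has
a set of `k` vertices with expansion at most `ε` if `f x` is true (for instance if `x` has an even
number of ones), and all sets of `k` vertices of `G x` have expansion at least `1 - η` if `f x` is
false; here `ε + η < 1`. If every entry of the adjacency matrix of `G x` is computed by a formula
over AND, OR and literals, then the formulas have together at least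

  `(1/4) ((1 - ε - η) (k / n) s) ^ 2` times the average number of ones of the adjacency matrix

leaves, where `s` is a lower bound for the sensitivity of `f` at all inputs (`s = N` for parity). So a
hardness proof for `SSE(η, δ)` by many-one reductions has to use formulas with `c N ^ 2` leaves for each
edge of the graphs, `c = (1 - 2 η) ^ 2 δ ^ 2 / 4`, even for reductions from parity; this is sharp up to
the constant, as parity itself has formulas with `N ^ 2` leaves. If the graphs are given by
lists of neighbours, whose entries are coded by `B` bits, then the formulas for the bits have at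
least `((1 - ε - η) (k / n) s) ^ 2 / (4 B ^ 2)` leaves on average.

The definitions used in the statement (`Formula`, `leaves`, `eval`, `sens`, `Reduces`, `Lists`) are
in `Pool/Agent/K7/H42/SSE/Khr.lean`, `Form.lean` and `Lists.lean`; `cut` (used in `Reduces`) and
`lost Y Z`, the number of pairs adjacent in `Y` and not in `Z`, are in
`Pool/Agent/Y601/SSE/Defs.lean` and `Ac0.lean`.

Proof: a yes instance and a no instance of the same order differ in a fraction
`(1 - ε - η) (k / n) / 2` of the edges, so by flipping single bits the entries change often on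
average; Khrapchenko's lemma bounds this number for an entry with density `p` and `L` leaves by
`√(L p)`.
-/

namespace Pool.Agent.Results.MP_8d8c46_lc.FormulaSize

open Finset Pool.Agent.K7.H42.SSE
open scoped Classical
open Pool.Agent.Y601.SSE (lost)

theorem result :
    -- (1) reductions which output the adjacency matrix
    (∀ (N k s : ℕ) (V : Type) [Fintype V] (f : (Fin N → Bool) → Bool)
      (G : (Fin N → Bool) → SimpleGraph V) (d : (Fin N → Bool) → ℕ) (ε η : ℝ),
      1 ≤ k → k ≤ Fintype.card V → 0 ≤ ε → 0 ≤ η → ε + η < 1 → Reduces f G d k ε η →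
      (∀ x, s ≤ sens f x) →
      ∀ F : V → V → Formula (Fin N), (∀ x u v, (F u v).eval x = true ↔ (G x).Adj u v) →
      ((1 - ε - η) * (k / Fintype.card V) * s) ^ 2 / 4 *
        ((∑ x, ((univ.filter fun p : V × V => (G x).Adj p.1 p.2).card : ℝ)) / 2 ^ N) ≤
        ∑ u, ∑ v, ((F u v).leaves : ℝ)) ∧
    -- (2) reductions which output lists of neighbours
    (∀ (N k s d B : ℕ) (V : Type) [Fintype V] (f : (Fin N → Bool) → Bool)
      (G : (Fin N → Bool) → SimpleGraph V) (ε η : ℝ),
      1 ≤ k → k ≤ Fintype.card V → 0 ≤ ε → 0 ≤ η → ε + η < 1 → Reduces f G (fun _ => d) k ε η →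
      (∀ x, s ≤ sens f x) →
      ∀ (nb : (Fin N → Bool) → V → Fin d → V), (∀ x, Lists (G x) (nb x)) →
      ∀ (code : V → Fin B → Bool), Function.Injective code →
      ∀ F : V → Fin d → Fin B → Formula (Fin N),
        (∀ x u j b, (F u j b).eval x = code (nb x u j) b) →
      ((1 - ε - η) * (k / Fintype.card V) * s) ^ 2 * (Fintype.card V * d) ≤
        4 * B * ∑ u, ∑ j, ∑ b, ((F u j b).leaves : ℝ)) ∧
    -- (3) parity has sensitivity `N` at every input
    (∀ (N : ℕ) (x : Fin N → Bool),
      sens (fun y => decide (Even (univ.filter fun i => y i = true).card)) x = N) ∧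
    -- (4) formulas for reductions from parity with two graphs
    (∀ (m : ℕ) (V : Type) [Fintype V] (Y Z : SimpleGraph V),
      ∃ F : V → V → Formula (Fin (2 ^ m)),
        (∀ x u v, (F u v).eval x = true ↔
          (if Even (univ.filter fun i => x i = true).card then Y else Z).Adj u v) ∧
        ∑ u, ∑ v, (F u v).leaves ≤ (2 ^ m) ^ 2 * (lost Y Z + lost Z Y)) := by
  refine ⟨?_, ?_, ?_, fun m V _ Y Z => sharp m Y Z⟩
  · intro N k s V _ f G d ε η h1 h2 h3 h4 h5 h6 h7 F h8
    have := matrix_bound h6 h2 h1 h3 h4 h5 h7 F h8
    rw [Fintype.card_fin] at this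
    exact this
  · intro N k s d B V _ f G ε η h1 h2 h3 h4 h5 h6 h7 nb h8 code h9 F h10
    exact list_bound h6 h2 h1 h3 h4 h5 h7 nb h8 code h9 F h10
  · intro N x
    unfold sens
    rw [filter_true_of_mem, card_univ, Fintype.card_fin]
    intro i _ h
    have h1 := Pool.Agent.Y601.SSE.odd_flip i x
    rw [decide_eq_decide, ← Nat.not_odd_iff_even, ← Nat.not_odd_iff_even, not_iff_not] at h
    have h2 : Odd (univ.filter fun j => flip i x j = true).card ↔
        ¬ Odd (univ.filter fun j => x j = true).card := by
      exact_mod_cast h1
    rw [h2] at h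
    tauto

end Pool.Agent.Results.MP_8d8c46_lc.FormulaSize
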