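import Pool.Agent.K7.H42.SSE.Deg

set_option autoImplicit false

/-!
# Reductions to small-set expansion have linear degree

Let `G x` be a regular graph on a fixed vertex set for every input `x` of `N` bits, such that `G x` has
a set of `k` vertices with expansion at most `ε` if `f x` is true (for instance if `x` has an even
number of ones), and all sets of `k` vertices of `G x` have expansion at least `1 - η` if `f x` is
false; here `ε + η < 1`. Let `s` be a lower bound for the sensitivity of `f` at all inputs (`s = N` for
parity).

* Some entry of the adjacency matrix of `G x` is a real multilinear polynomial in the bits of `x` of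
  degree at least `(1 - ε - η) (k / n) s / 4`. So some entry needs linearly many queries to the input,
  also for zero-error randomised and exact quantum algorithms.
* If all entries of the matrix are approximated by polynomials of degree `D` (with error `1/3`) then
  `64 D ≥ (1 - ε - η) (k / n) s δ`, where `δ` is the average degree of `G x` divided by `n`; if the
  bits of the lists of neighbours (each coded by `B` bits) are approximated by polynomials of degree
  `D` then `128 B D ≥ (1 - ε - η) (k / n) s`. So bounded-error quantum algorithms for the bits of the
  output of a reduction from parity need `c N` (for lists: `c N / B`) queries.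

The definitions used in the statement (`bits`, `Approx`, and `sens`, `Reduces`, `Lists`) are in
`Pool/Agent/K7/H42/SSE/Deg.lean`, `Form.lean` and `Lists.lean`; `cut` (used in `Reduces`) is in
`Pool/Agent/Y601/SSE/Defs.lean`.

Proof: a yes instance and a no instance of the same order differ in a fraction
`(1 - ε - η) (k / n) / 2` of the edges, so by flipping single bits the entries change often on
average; for a function with density `p` and degree `D` the average sensitivity is at most `4 D p`.
-/

namespace Pool.Agent.Results.MP_8d8c46_lc.LowDegree

open Finset Pool.Agent.K7.H42.SSE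
open scoped Classical

theorem result (N k s D : ℕ) (V : Type) [Fintype V] (f : (Fin N → Bool) → Bool)
    (G : (Fin N → Bool) → SimpleGraph V) (ε η : ℝ) (hk1 : 1 ≤ k) (hk : k ≤ Fintype.card V)
    (hε : 0 ≤ ε) (hη : 0 ≤ η) (hεη : ε + η < 1) (hs : ∀ x, s ≤ sens f x) :
    -- (1) reductions which output the adjacency matrix, exact degree
    (∀ d : (Fin N → Bool) → ℕ, Reduces f G d k ε η →
      (∀ u v, ∃ P : MvPolynomial (Fin N) ℝ, P.totalDegree ≤ D ∧
        Approx 0 P (fun x => decide ((G x).Adj u v))) →
      (1 - ε - η) * (k / Fintype.card V) * s ≤ 4 * D) ∧
    -- (2) reductions which output the adjacency matrix, approximate degree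
    (∀ d : (Fin N → Bool) → ℕ, Reduces f G d k ε η →
      (∀ u v, ∃ P : MvPolynomial (Fin N) ℝ, P.totalDegree ≤ D ∧
        Approx (1 / 3) P (fun x => decide ((G x).Adj u v))) →
      (1 - ε - η) * (k / Fintype.card V) * s *
        (((∑ x, (d x : ℝ)) / 2 ^ N) / Fintype.card V) ≤ 64 * D) ∧
    -- (3) reductions which output lists of neighbours, approximate degree
    (∀ d B : ℕ, Reduces f G (fun _ => d) k ε η →
      ∀ nb : (Fin N → Bool) → V → Fin d → V, (∀ x, Lists (G x) (nb x)) →
      ∀ code : V → Fin B → Bool, Function.Injective code →
      (∀ u j b, ∃ P : MvPolynomial (Fin N) ℝ, P.totalDegree ≤ D ∧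
        Approx (1 / 3) P (fun x => code (nb x u j) b)) →
      (1 - ε - η) * (k / Fintype.card V) * s ≤ 128 * B * D) := by
  refine ⟨fun d h hP => exact_bound h hk hk1 hε hη hεη hs hP, fun d h hP => ?_,
    fun d B h nb hnb code hcode hP => approx_list h hk hk1 hε hη hεη hs nb hnb code hcode hP⟩
  have := approx_bound h hk hk1 hε hη hεη hs hP
  rw [Fintype.card_fin] at this
  exact this

end Pool.Agent.Results.MP_8d8c46_lc.LowDegree
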