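import Pool.Agent.K7.H42.SSE.Unate

set_option autoImplicit false

/-!
# Reductions to small-set expansion whose entries are threshold functions

Let `G x` be a regular graph on a fixed set of `n` vertices for every input `x` of `N` bits, such that
`G x` has a set of `k` vertices with expansion at most `ε` if `f x` is true (for instance if `x` has an
even number of ones), and all sets of `k` vertices of `G x` have expansion at least `1 - η` if `f x` is
false; here `ε + η < 1`. Let `s` be a lower bound for the sensitivity of `f` at all inputs (`s = N` for
parity), and `c = (1 - ε - η) (k / n) s`.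

* If every entry of the adjacency matrix of `G x` is a unate function of `x` (for instance a linear
  threshold function, with any real weights), then `n ≥ exp (c ^ 2 / (8 N))`: the reduction has an
  output of exponential size.
* If every bit of the lists of neighbours (each neighbour coded by `B` bits) is unate, then
  `c ≤ 2 B √N`. So `B` is at least a constant times `√N`, while `B = O(log n)` for usual codes.

A function is unate if it is monotone in every variable, in a direction that can depend on the
variable (and on the entry). The definitions used in the statement (`Unate`, and `sens`, `Reduces`,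
`Lists`) are in `Pool/Agent/K7/H42/SSE/Unate.lean`, `Form.lean` and `Lists.lean`; `cut` (used in
`Reduces`) is in `Pool/Agent/Y601/SSE/Defs.lean`.

Proof: a yes instance and a no instance of the same order differ in a fraction
`(1 - ε - η) (k / n) / 2` of the edges, so by flipping single bits the entries change often on
average. A unate function with density `p` changes at most `p √(2 N log (1 / p))` times (level-1
inequality), and the mean of the densities, weighted by the densities, is at least `1 / n`.
-/

namespace Pool.Agent.Results.MP_8d8c46_lc.UnateEntries

open Finset Pool.Agent.K7.H42.SSE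
open scoped Classical

theorem result :
    (∀ (N k s : ℕ) (V : Type) [Fintype V] (f : (Fin N → Bool) → Bool)
      (G : (Fin N → Bool) → SimpleGraph V) (ε η : ℝ), 1 ≤ k → k ≤ Fintype.card V →
      0 ≤ ε → 0 ≤ η → ε + η < 1 → (∀ x, s ≤ sens f x) →
      -- (1) reductions which output the adjacency matrix
      (∀ d : (Fin N → Bool) → ℕ, Reduces f G d k ε η →
        (∀ u v, Unate (fun x => decide ((G x).Adj u v))) →
        Real.exp (((1 - ε - η) * (k / Fintype.card V) * s) ^ 2 / (8 * N)) ≤ Fintype.card V) ∧
      -- (2) reductions which output lists of neighbours
      (∀ d B : ℕ, Reduces f G (fun _ => d) k ε η →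
        ∀ nb : (Fin N → Bool) → V → Fin d → V, (∀ x, Lists (G x) (nb x)) →
        ∀ code : V → Fin B → Bool, Function.Injective code →
        (∀ u j b, Unate (fun x => code (nb x u j) b)) →
        (1 - ε - η) * (k / Fintype.card V) * s ≤ 2 * B * √(N : ℝ))) ∧
    -- (3) linear threshold functions are unate
    (∀ (N : ℕ) (w : Fin N → ℝ) (θ : ℝ),
      Unate (fun x => decide (θ ≤ ∑ i, w i * bits x i))) :=
  ⟨fun _ _ _ _ _ _ _ _ _ hk1 hk hε hη hεη hs =>
    ⟨fun _ h hU => unate_matrix h hk hk1 hε hη hεη hs hU,
     fun _ _ h nb hnb code hcode hU => unate_list h hk hk1 hε hη hεη hs nb hnb code hcode hU⟩,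
   fun _ w θ => unate_threshold w θ⟩

end Pool.Agent.Results.MP_8d8c46_lc.UnateEntries
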